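import Mathlib

/-!
# Finitely generated fiber products of free semigroups are finitely presented
-/

set_option autoImplicit false

namespace Pool.Agent.Results.MP_c47b4a_al.FiberProductFP

universe u v w

/-- The fiber product `{(u, v) : f u = g v}` of two free semigroups over `f` and `g`, as a
subsemigroup of the direct product. -/
def fiberProduct {A : Type u} {B : Type v} {Q : Type w} [Semigroup Q]
    (f : FreeSemigroup A →ₙ* Q) (g : FreeSemigroup B →ₙ* Q) :
    Subsemigroup (FreeSemigroup A × FreeSemigroup B) where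
  carrier := {x | f x.1 = g x.2}
  mul_mem' := by
    intro x y hx hy
    change f x.1 = g x.2 at hx
    change f y.1 = g y.2 at hy
    change f (x.1 * y.1) = g (x.2 * y.2)
    rw [map_mul, map_mul, hx, hy]

/-- `S` is generated, as a semigroup, by a finite subset. -/
def IsFinitelyGenerated (S : Type u) [Semigroup S] : Prop :=
  ∃ X : Set S, X.Finite ∧ Subsemigroup.closure X = ⊤

/-- `S` is isomorphic to `X⁺ / ρ` for a finite alphabet `X` (here `Fin n`) and a congruence `ρ`
generated by a finite set `R` of pairs of words. -/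
def IsFinitelyPresented (S : Type u) [Semigroup S] : Prop :=
  ∃ (n : ℕ) (R : Set (FreeSemigroup (Fin n) × FreeSemigroup (Fin n))), R.Finite ∧
    Nonempty ((conGen (fun x y => (x, y) ∈ R)).Quotient ≃* S)

section lists

variable {A : Type u} {B : Type v} {Q : Type w} [Semigroup Q]

/-- value of a list of letters in `Q` with an adjoined identity -/
def F {A : Type u} (f : A → Q) (l : List A) : WithOne Q := (l.map (fun a => (f a : WithOne Q))).prod

@[simp] lemma F_nil (f : A → Q) : F f [] = 1 := rfl
lemma F_cons (f : A → Q) (a : A) (l : List A) : F f (a :: l) = (f a : WithOne Q) * F f l := by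
  simp [F]
lemma F_append (f : A → Q) (l m : List A) : F f (l ++ m) = F f l * F f m := by
  simp [F]

lemma coe_mul_ne_one (q : Q) (x : WithOne Q) : (q : WithOne Q) * x ≠ 1 := by
  induction x using WithOne.recOneCoe with
  | one => rw [mul_one]; exact WithOne.coe_ne_one
  | coe r => rw [← WithOne.coe_mul]; exact WithOne.coe_ne_one

lemma F_eq_one {f : A → Q} {l : List A} (h : F f l = 1) : l = [] := by
  cases l with
  | nil => rfl
  | cons a l => rw [F_cons] at h; exact absurd h (coe_mul_ne_one _ _)

lemma F_forall2 {f : A → Q} {g : B → Q} {a : List A} {b : List B}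
    (h : List.Forall₂ (fun a b => f a = g b) a b) : F f a = F g b := by
  induction h with
  | nil => rfl
  | cons h _ ih => rw [F_cons, F_cons, h, ih]

/-- good generator -/
def Good (f : A → Q) (g : B → Q) (L : ℕ) (p : List A × List B) : Prop :=
  p.1 ≠ [] ∧ p.2 ≠ [] ∧ p.1.length ≤ L ∧ p.2.length ≤ L ∧ F f p.1 = F g p.2

/-- every matched pair is a product of good generators -/
def Gen (f : A → Q) (g : B → Q) (L : ℕ) : Prop :=
  ∀ (U : List A) (V : List B), F f U = F g V → ∃ gs : List (List A × List B),
    (∀ p ∈ gs, Good f g L p) ∧ U = (gs.map Prod.fst).flatten ∧ V = (gs.map Prod.snd).flatten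

variable {f : A → Q} {g : B → Q} {L : ℕ}

lemma len_gs (gs : List (List A × List B)) (h : ∀ p ∈ gs, Good f g L p) :
    gs.length ≤ (gs.map Prod.fst).flatten.length ∧
    (gs.map Prod.fst).flatten.length ≤ L * gs.length ∧
    gs.length ≤ (gs.map Prod.snd).flatten.length ∧
    (gs.map Prod.snd).flatten.length ≤ L * gs.length ∧
    F f (gs.map Prod.fst).flatten = F g (gs.map Prod.snd).flatten := by
  induction gs with
  | nil => simp
  | cons p gs ih =>
    obtain ⟨h1, h2, h3, h4, h5⟩ := ih (fun q hq => h q (List.mem_cons_of_mem _ hq))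
    obtain ⟨g1, g2, g3, g4, g5⟩ := h p List.mem_cons_self
    have g1' : 1 ≤ p.1.length := List.length_pos_iff.2 g1
    have g2' : 1 ≤ p.2.length := List.length_pos_iff.2 g2
    simp only [List.map_cons, List.flatten_cons, List.length_cons, List.length_append, F_append]
    refine ⟨by omega, ?_, by omega, ?_, by rw [h5, g5]⟩
    · rw [mul_add, mul_one]; omega
    · rw [mul_add, mul_one]; omega

lemma len_bound (hG : Gen f g L) {U : List A} {V : List B} (h : F f U = F g V) :
    U.length ≤ L * V.length ∧ V.length ≤ L * U.length := by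
  obtain ⟨gs, h1, rfl, rfl⟩ := hG U V h
  obtain ⟨h1, h2, h3, h4, _⟩ := len_gs gs h1
  exact ⟨h2.trans (Nat.mul_le_mul_left L h3), h4.trans (Nat.mul_le_mul_left L h1)⟩

lemma absorb_right (hG : Gen f g L) (hA : ∀ q : Q, ∃ l : List A, F f l = q)
    (hB : ∀ q : Q, ∃ l : List B, F g l = q) (x y : WithOne Q) (h : x * y = x) : y = 1 := by
  induction x using WithOne.recOneCoe with
  | one => rw [one_mul] at h; exact h
  | coe q =>
    by_contra hy
    obtain ⟨U, hU⟩ := hA q
    obtain ⟨V, hV⟩ := hB q
    obtain ⟨W, hW⟩ : ∃ W : List B, F g W = y := by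
      induction y using WithOne.recOneCoe with
      | one => exact absurd rfl hy
      | coe r => exact hB r
    have hWne : 1 ≤ W.length := by
      rw [Nat.one_le_iff_ne_zero]
      intro h0
      rw [List.length_eq_zero_iff] at h0
      rw [h0] at hW
      exact hy hW.symm
    have key : ∀ k : ℕ, F g (V ++ (List.replicate k W).flatten) = q ∧
        k ≤ (List.replicate k W).flatten.length := by
      intro k
      induction k with
      | zero => simpa using hV
      | succ k ih =>
        rw [List.replicate_succ', List.flatten_append, ← List.append_assoc, F_append, ih.1]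
        simp only [List.flatten_cons, List.flatten_nil, List.append_nil, List.length_append]
        rw [hW]
        exact ⟨h, by have := ih.2; omega⟩
    obtain ⟨h1, h2⟩ := key (L * U.length + 1)
    have h3 := (len_bound hG (hU.trans h1.symm)).2
    rw [List.length_append] at h3
    omega

lemma absorb_left (hG : Gen f g L) (hA : ∀ q : Q, ∃ l : List A, F f l = q)
    (hB : ∀ q : Q, ∃ l : List B, F g l = q) (x y : WithOne Q) (h : y * x = x) : y = 1 := by
  induction x using WithOne.recOneCoe with
  | one => rw [mul_one] at h; exact h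
  | coe q =>
    by_contra hy
    obtain ⟨U, hU⟩ := hA q
    obtain ⟨V, hV⟩ := hB q
    obtain ⟨W, hW⟩ : ∃ W : List B, F g W = y := by
      induction y using WithOne.recOneCoe with
      | one => exact absurd rfl hy
      | coe r => exact hB r
    have hWne : 1 ≤ W.length := by
      rw [Nat.one_le_iff_ne_zero]
      intro h0
      rw [List.length_eq_zero_iff] at h0
      rw [h0] at hW
      exact hy hW.symm
    have key : ∀ k : ℕ, F g ((List.replicate k W).flatten ++ V) = q ∧
        k ≤ (List.replicate k W).flatten.length := by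
      intro k
      induction k with
      | zero => simpa using hV
      | succ k ih =>
        rw [List.replicate_succ, List.flatten_cons, List.append_assoc, F_append, ih.1,
          List.length_append, hW]
        exact ⟨h, by have := ih.2; omega⟩
    obtain ⟨h1, h2⟩ := key (L * U.length + 1)
    have h3 := (len_bound hG (hU.trans h1.symm)).2
    rw [List.length_append] at h3
    omega

/-- Parallel words: each element of `Q` is the common value of two words over `A` and `B` that
agree letter by letter in `Q`. -/
lemma exists_parallel (hG : Gen f g L) (hA : ∀ q : Q, ∃ l : List A, F f l = q)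
    (hB : ∀ q : Q, ∃ l : List B, F g l = q) (q : Q) :
    ∃ (a : List A) (b : List B), List.Forall₂ (fun a b => f a = g b) a b ∧ F f a = q := by
  obtain ⟨V, hV⟩ := hB q
  have hbdd : ∀ n, (∃ U : List A, F f U = q ∧ U.length = n) → n ≤ L * V.length := by
    rintro n ⟨U, hU, rfl⟩
    exact (len_bound hG (hU.trans hV.symm)).1
  have hne : ∃ n, ∃ U : List A, F f U = q ∧ U.length = n := by
    obtain ⟨U, hU⟩ := hA q
    exact ⟨U.length, U, hU, rfl⟩
  classical
  obtain ⟨U, hU, hmax⟩ : ∃ U : List A, F f U = q ∧
      ∀ U' : List A, F f U' = q → U'.length ≤ U.length := by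
    have hspec := Nat.findGreatest_spec (P := fun n => ∃ U : List A, F f U = q ∧ U.length = n)
      (hbdd _ hne.choose_spec) hne.choose_spec
    obtain ⟨U, hU, hlen⟩ := hspec
    refine ⟨U, hU, fun U' hU' => ?_⟩
    rw [hlen]
    exact Nat.le_findGreatest (hbdd _ ⟨U', hU', rfl⟩) ⟨U', hU', rfl⟩
  have hletter : ∀ a ∈ U, ∃ b : B, f a = g b := by
    intro a ha
    obtain ⟨s, t, rfl⟩ := List.append_of_mem ha
    obtain ⟨v, hv⟩ := hB (f a)
    -- lift `v` letter by letter to a word over `A`
    have hlift : ∀ v : List B, ∃ u : List A, F f u = F g v ∧ v.length ≤ u.length := by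
      intro v
      induction v with
      | nil => exact ⟨[], rfl, le_refl _⟩
      | cons b v ih =>
        obtain ⟨u, hu, hul⟩ := ih
        obtain ⟨u', hu'⟩ := hA (g b)
        refine ⟨u' ++ u, ?_, ?_⟩
        · rw [F_append, F_cons, hu', hu]
        · have : 1 ≤ u'.length := by
            rw [Nat.one_le_iff_ne_zero]
            intro h0
            rw [List.length_eq_zero_iff] at h0
            rw [h0] at hu'
            exact WithOne.coe_ne_one hu'.symm
          rw [List.length_append, List.length_cons]; omega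
    obtain ⟨u, hu, hul⟩ := hlift v
    have h1 : F f (s ++ (u ++ t)) = q := by
      rw [← hU, F_append, F_append, F_append, F_cons, hu, hv]
    have h2 := hmax _ h1
    simp only [List.length_append, List.length_cons] at h2
    have h3 : v.length ≤ 1 := by omega
    match v, hv, h3 with
    | [], hv, _ => exact absurd hv.symm WithOne.coe_ne_one
    | [b], hv, _ =>
      refine ⟨b, ?_⟩
      rw [F_cons, F_nil, mul_one] at hv
      exact (WithOne.coe_inj.1 hv).symm
    | b :: c :: v, _, h3 => simp at h3
  have hex : ∀ U : List A, (∀ a ∈ U, ∃ b : B, f a = g b) →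
      ∃ b : List B, List.Forall₂ (fun a b => f a = g b) U b := by
    intro U
    induction U with
    | nil => intro _; exact ⟨[], List.Forall₂.nil⟩
    | cons a U ih =>
      intro h
      obtain ⟨b, hb⟩ := h a List.mem_cons_self
      obtain ⟨v, hv⟩ := ih (fun a ha => h a (List.mem_cons_of_mem _ ha))
      exact ⟨b :: v, List.Forall₂.cons hb hv⟩
  obtain ⟨b, hb⟩ := hex U hletter
  exact ⟨U, b, hb, hU⟩

/-- Parallel lifts of a word over `B`. -/
lemma exists_parallel_word (hG : Gen f g L) (hA : ∀ q : Q, ∃ l : List A, F f l = q)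
    (hB : ∀ q : Q, ∃ l : List B, F g l = q) :
    ∃ (T : List B → List A) (S : List B → List B),
      (∀ β, List.Forall₂ (fun a b => f a = g b) (T β) (S β)) ∧ (∀ β, F f (T β) = F g β) ∧
      (∀ β, F g (S β) = F g β) ∧
      (∀ β γ, S (β ++ γ) = S β ++ S γ) ∧ (∀ β, β.length ≤ (S β).length) := by
  choose a b hab ha using exists_parallel hG hA hB
  refine ⟨fun β => (β.map (fun c => a (g c))).flatten, fun β => (β.map (fun c => b (g c))).flatten,
    ?_, ?_, ?_, ?_, ?_⟩
  · intro β
    induction β with
    | nil => exact List.Forall₂.nil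
    | cons c β ih =>
      simp only [List.map_cons, List.flatten_cons]
      exact List.rel_append (hab _) ih
  · intro β
    induction β with
    | nil => rfl
    | cons c β ih =>
      simp only [List.map_cons, List.flatten_cons, F_append, F_cons]
      rw [ha, ih]
  · intro β
    induction β with
    | nil => rfl
    | cons c β ih =>
      simp only [List.map_cons, List.flatten_cons, F_append, F_cons]
      rw [← F_forall2 (hab _), ha, ih]
  · intro β γ
    simp
  · intro β
    induction β with
    | nil => simp
    | cons c β ih =>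
      simp only [List.map_cons, List.flatten_cons, List.length_append, List.length_cons]
      have : 1 ≤ (b (g c)).length := by
        rw [Nat.one_le_iff_ne_zero]
        intro h0
        rw [List.length_eq_zero_iff] at h0
        have h1 := ha (g c)
        rw [F_forall2 (hab _), h0] at h1
        exact WithOne.coe_ne_one h1.symm
      beta_reduce at ih
      omega

lemma exists_cut (gs : List (List A × List B)) (h : ∀ p ∈ gs, Good f g L p) (m n : ℕ)
    (hm : m ≤ (gs.map Prod.fst).flatten.length) (hn : n ≤ (gs.map Prod.snd).flatten.length) :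
    ∃ (U1 U2 : List A) (V1 V2 : List B),
      (gs.map Prod.fst).flatten = U1 ++ U2 ∧ (gs.map Prod.snd).flatten = V1 ++ V2 ∧
      F f U1 = F g V1 ∧ F f U2 = F g V2 ∧ m ≤ U1.length ∧ n ≤ V1.length ∧
      ((0 < m ∧ U1.length < m + L) ∨ (0 < n ∧ V1.length < n + L) ∨ (m = 0 ∧ n = 0)) := by
  induction gs generalizing m n with
  | nil =>
    refine ⟨[], [], [], [], rfl, rfl, rfl, rfl, hm, hn, Or.inr (Or.inr ?_)⟩
    simpa using And.intro hm hn
  | cons p gs ih =>
    have hgs := (len_gs (p :: gs) h).2.2.2.2
    obtain ⟨g1, g2, g3, g4, g5⟩ := h p List.mem_cons_self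
    have g1' : 1 ≤ p.1.length := List.length_pos_iff.2 g1
    have g2' : 1 ≤ p.2.length := List.length_pos_iff.2 g2
    by_cases h0 : m = 0 ∧ n = 0
    · exact ⟨[], _, [], _, rfl, rfl, rfl, hgs, by omega, by omega, Or.inr (Or.inr h0)⟩
    have h' : ∀ q ∈ gs, Good f g L q := fun q hq => h q (List.mem_cons_of_mem _ hq)
    simp only [List.map_cons, List.flatten_cons, List.length_append] at hm hn ⊢
    by_cases h1 : m ≤ p.1.length ∧ n ≤ p.2.length
    · refine ⟨p.1, _, p.2, _, rfl, rfl, g5, (len_gs gs h').2.2.2.2, h1.1, h1.2, ?_⟩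
      omega
    · obtain ⟨U1, U2, V1, V2, e1, e2, e3, e4, e5, e6, e7⟩ :=
        ih h' (m - p.1.length) (n - p.2.length) (by omega) (by omega)
      refine ⟨p.1 ++ U1, U2, p.2 ++ V1, V2, by rw [e1, List.append_assoc],
        by rw [e2, List.append_assoc], by rw [F_append, F_append, g5, e3], e4,
        by rw [List.length_append]; omega, by rw [List.length_append]; omega, ?_⟩
      rw [List.length_append, List.length_append]
      omega

/-- The key absorption property. -/
lemma star (hG : Gen f g L) (hA : ∀ q : Q, ∃ l : List A, F f l = q)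
    (hB : ∀ q : Q, ∃ l : List B, F g l = q) (x : List A) (y : List B) (hx : x ≠ []) (hy : y ≠ [])
    (α : List A) (β β' β'' : List B) (h1 : F f α = F g β) (h2 : F f (x ++ α) = F g (y ++ β))
    (hβ : β = β' ++ β'') (hlen : L ≤ β'.length) :
    F f x * F g β' = F g y * F g β' := by
  obtain ⟨T, S, hTS, hT, hS, hSapp, hSlen⟩ := exists_parallel_word hG hA hB
  have hW : F f (x ++ T β) = F g (y ++ S β) := by
    rw [F_append, F_append, hT, hS, ← h1, ← F_append, h2, F_append, h1]
  obtain ⟨gs, hgs, e1, e2⟩ := hG _ _ hW
  obtain ⟨U1, U2, V1, V2, c1, c2, c3, c4, c5, c6, c7⟩ := exists_cut gs hgs x.length y.length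
    (by rw [← e1, List.length_append]; omega) (by rw [← e2, List.length_append]; omega)
  rw [← e1] at c1
  rw [← e2] at c2
  have hx' : 1 ≤ x.length := List.length_pos_iff.2 hx
  have hy' : 1 ≤ y.length := List.length_pos_iff.2 hy
  -- split off `x` and `y`
  obtain ⟨T1, rfl⟩ : ∃ T1, U1 = x ++ T1 := by
    have p2 : U1 <+: x ++ T β := by rw [c1]; exact List.prefix_append _ _
    have : x <+: U1 := List.prefix_of_prefix_length_le (List.prefix_append _ _) p2 c5
    obtain ⟨t, ht⟩ := this
    exact ⟨t, ht.symm⟩
  obtain ⟨S1, rfl⟩ : ∃ S1, V1 = y ++ S1 := by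
    have p2 : V1 <+: y ++ S β := by rw [c2]; exact List.prefix_append _ _
    have : y <+: V1 := List.prefix_of_prefix_length_le (List.prefix_append _ _) p2 c6
    obtain ⟨t, ht⟩ := this
    exact ⟨t, ht.symm⟩
  rw [List.append_assoc, List.append_cancel_left_eq] at c1 c2
  have hpar := hTS β
  rw [c1, c2] at hpar
  have hlen2 := hpar.length_eq
  rw [List.length_append, List.length_append] at hlen2
  -- the cut is synchronous
  have hsync : T1.length = S1.length := by
    rcases Nat.lt_trichotomy T1.length S1.length with hlt | heq | hgt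
    · -- then `U2` is longer
      exfalso
      obtain ⟨U21, U22, rfl, hU⟩ : ∃ U21 U22, U2 = U21 ++ U22 ∧ (T1 ++ U21).length = S1.length :=
        ⟨U2.take (S1.length - T1.length), U2.drop (S1.length - T1.length),
          (List.take_append_drop _ _).symm, by
            rw [List.length_append, List.length_take]; omega⟩
      rw [← List.append_assoc] at hpar
      have hp2 : List.Forall₂ (fun a b => f a = g b) U22 V2 := by
        have := List.forall₂_drop (S1.length) hpar
        rwa [List.drop_left' hU, List.drop_left' rfl] at this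
      have h3 := F_forall2 hp2
      rw [F_append, h3] at c4
      have h4 := absorb_left hG hA hB _ _ c4
      have h5 := F_eq_one h4
      rw [h5, List.append_nil] at hU
      omega
    · exact heq
    · exfalso
      obtain ⟨V21, V22, rfl, hV⟩ : ∃ V21 V22, V2 = V21 ++ V22 ∧ (S1 ++ V21).length = T1.length :=
        ⟨V2.take (T1.length - S1.length), V2.drop (T1.length - S1.length),
          (List.take_append_drop _ _).symm, by
            rw [List.length_append, List.length_take]; omega⟩
      rw [← List.append_assoc] at hpar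
      have hp2 : List.Forall₂ (fun a b => f a = g b) U2 V22 := by
        have := List.forall₂_drop (T1.length) hpar
        rwa [List.drop_left' hV, List.drop_left' rfl] at this
      have h3 := F_forall2 hp2
      rw [F_append, ← h3] at c4
      have h4 := absorb_left hG hA hB _ _ c4.symm
      have h5 := F_eq_one h4
      rw [h5, List.append_nil] at hV
      omega
  have hp1 : List.Forall₂ (fun a b => f a = g b) T1 S1 := by
    have := List.forall₂_take (T1.length) hpar
    rwa [List.take_left' rfl, List.take_left' hsync.symm] at this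
  have h3 := F_forall2 hp1
  rw [F_append, F_append, h3] at c3
  have hS1 : S1.length < L := by
    simp only [List.length_append] at c7
    omega
  -- `S1` is a prefix of `S β'`
  obtain ⟨ρ, hρ⟩ : ∃ ρ, S β' = S1 ++ ρ := by
    have h4 : S β = S β' ++ S β'' := by rw [hβ, hSapp]
    have p1 : S1 <+: S β := by rw [c2]; exact List.prefix_append _ _
    have p2 : S β' <+: S β := by rw [h4]; exact List.prefix_append _ _
    have : S1 <+: S β' := List.prefix_of_prefix_length_le p1 p2
      (by have := hSlen β'; omega)
    obtain ⟨t, ht⟩ := this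
    exact ⟨t, ht.symm⟩
  have h5 : F g β' = F g S1 * F g ρ := by rw [← hS, hρ, F_append]
  rw [h5, ← mul_assoc, ← mul_assoc, c3]

/-- The refinement lemma in list form. -/
lemma refine_list (hG : Gen f g L) (hA : ∀ q : Q, ∃ l : List A, F f l = q)
    (hB : ∀ q : Q, ∃ l : List B, F g l = q) (x : List A) (y : List B) (hx : x ≠ []) (hy : y ≠ [])
    (α : List A) (β : List B) (h1 : F f α = F g β) (h2 : F f (x ++ α) = F g (y ++ β))
    (hlong : L * L + L < α.length) :
    ∃ (α1 α2 : List A) (β1 β2 : List B), α = α1 ++ α2 ∧ β = β1 ++ β2 ∧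
      F f α1 = F g β1 ∧ F f α2 = F g β2 ∧ F f (x ++ α1) = F g (y ++ β1) ∧
      α1 ≠ [] ∧ α2 ≠ [] ∧ α1.length ≤ L * L := by
  obtain ⟨gs, hgs, rfl, rfl⟩ := hG _ _ h1
  have hl := len_gs gs hgs
  have hgsl : L < gs.length := by
    by_contra hcon
    have : L * gs.length ≤ L * L := Nat.mul_le_mul_left L (by omega)
    omega
  have hL : 1 ≤ L := by
    match gs, hgs, hgsl with
    | [], _, hgsl => simp at hgsl
    | p :: gs, hgs, _ =>
      obtain ⟨g1, g2, g3, g4, g5⟩ := hgs p List.mem_cons_self
      have g1' : 1 ≤ p.1.length := List.length_pos_iff.2 g1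
      omega
  have t1 := len_gs (gs.take L) (fun p hp => hgs p (List.mem_of_mem_take hp))
  have t2 := len_gs (gs.drop L) (fun p hp => hgs p (List.mem_of_mem_drop hp))
  have htl : (gs.take L).length = L := by rw [List.length_take]; omega
  have hdl : 1 ≤ (gs.drop L).length := by rw [List.length_drop]; omega
  rw [htl] at t1
  refine ⟨((gs.take L).map Prod.fst).flatten, ((gs.drop L).map Prod.fst).flatten,
    ((gs.take L).map Prod.snd).flatten, ((gs.drop L).map Prod.snd).flatten, ?_, ?_,
    t1.2.2.2.2, t2.2.2.2.2, ?_, ?_, ?_, t1.2.1⟩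
  · rw [← List.flatten_append, ← List.map_append, List.take_append_drop]
  · rw [← List.flatten_append, ← List.map_append, List.take_append_drop]
  · rw [F_append, F_append, t1.2.2.2.2]
    refine star hG hA hB x y hx hy _ _ _ (((gs.drop L).map Prod.snd).flatten) h1 h2 ?_ t1.2.2.1
    rw [← List.flatten_append, ← List.map_append, List.take_append_drop]
  · intro h; have := t1.1; rw [h] at this; simp at this; omega
  · intro h; have := t2.1; rw [h, List.length_nil] at this; omega

end lists

section transfer

variable {A : Type u} {B : Type v} {Q : Type w} [Semigroup Q]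

/-- the list of letters of a word -/
def toL {A : Type u} (x : FreeSemigroup A) : List A := x.head :: x.tail

lemma toL_mul (x y : FreeSemigroup A) : toL (x * y) = toL x ++ toL y := rfl
lemma toL_ne (x : FreeSemigroup A) : toL x ≠ [] := List.cons_ne_nil _ _
lemma toL_inj {x y : FreeSemigroup A} (h : toL x = toL y) : x = y := by
  rw [toL, toL, List.cons.injEq] at h
  exact FreeSemigroup.ext h.1 h.2
lemma exists_toL {l : List A} (h : l ≠ []) : ∃ x : FreeSemigroup A, toL x = l := by
  cases l with
  | nil => exact absurd rfl h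
  | cons a l => exact ⟨⟨a, l⟩, rfl⟩

lemma F_toL (f : FreeSemigroup A →ₙ* Q) (x : FreeSemigroup A) :
    F (fun a => f (FreeSemigroup.of a)) (toL x) = (f x : WithOne Q) := by
  induction x using FreeSemigroup.recOnMul with
  | ih1 a => simp [toL, F, FreeSemigroup.of]
  | ih2 x y hx hy => rw [toL_mul, F_append, hy, map_mul, WithOne.coe_mul]; rw [hx]

variable {f : FreeSemigroup A →ₙ* Q} {g : FreeSemigroup B →ₙ* Q}

lemma matched (s : fiberProduct f g) : F (fun a => f (FreeSemigroup.of a)) (toL s.1.1) =
    F (fun b => g (FreeSemigroup.of b)) (toL s.1.2) := by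
  rw [F_toL, F_toL]
  exact congrArg _ s.2

lemma exists_elt {U : List A} {V : List B} (hU : U ≠ [])
    (h : F (fun a => f (FreeSemigroup.of a)) U = F (fun b => g (FreeSemigroup.of b)) V) :
    ∃ s : fiberProduct f g, toL s.1.1 = U ∧ toL s.1.2 = V := by
  have hV : V ≠ [] := by
    rintro rfl
    exact hU (F_eq_one h)
  obtain ⟨x, rfl⟩ := exists_toL hU
  obtain ⟨y, rfl⟩ := exists_toL hV
  rw [F_toL, F_toL] at h
  exact ⟨⟨(x, y), WithOne.coe_inj.1 h⟩, rfl, rfl⟩

lemma gen_of_closure {X : Set (fiberProduct f g)} (hX : Subsemigroup.closure X = ⊤) {L : ℕ}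
    (hL : ∀ s ∈ X, (toL s.1.1).length ≤ L ∧ (toL s.1.2).length ≤ L) :
    Gen (fun a => f (FreeSemigroup.of a)) (fun b => g (FreeSemigroup.of b)) L := by
  intro U V hUV
  by_cases hU : U = []
  · subst hU
    have hV : V = [] := F_eq_one hUV.symm
    subst hV
    exact ⟨[], by simp, rfl, rfl⟩
  obtain ⟨s, rfl, rfl⟩ := exists_elt hU hUV
  have hs : s ∈ Subsemigroup.closure X := by rw [hX]; trivial
  induction hs using Subsemigroup.closure_induction with
  | mem x hx =>
    refine ⟨[(toL x.1.1, toL x.1.2)], ?_, by simp, by simp⟩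
    intro p hp
    rw [List.mem_singleton] at hp
    subst hp
    exact ⟨toL_ne _, toL_ne _, (hL x hx).1, (hL x hx).2, matched x⟩
  | mul x y hx hy ihx ihy =>
    obtain ⟨gs, h1, h2, h3⟩ := ihx (toL_ne _) (matched x)
    obtain ⟨gs', h1', h2', h3'⟩ := ihy (toL_ne _) (matched y)
    refine ⟨gs ++ gs', ?_, ?_, ?_⟩
    · intro p hp
      rcases List.mem_append.1 hp with hp | hp
      · exact h1 p hp
      · exact h1' p hp
    · rw [List.map_append, List.flatten_append, ← h2, ← h2']; rfl
    · rw [List.map_append, List.flatten_append, ← h3, ← h3']; rfl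

lemma join {L : ℕ}
    (hG : Gen (fun a => f (FreeSemigroup.of a)) (fun b => g (FreeSemigroup.of b)) L)
    (hf : Function.Surjective f) (hg : Function.Surjective g)
    (p p' s s' : fiberProduct f g) (h : p * s = p' * s')
    (hlt : (toL p.1.1).length < (toL p'.1.1).length) (hp' : (toL p'.1.1).length ≤ L)
    (hlong : L * L + L < (toL s'.1.1).length) :
    ∃ r r' t : fiberProduct f g, p * r = p' * r' ∧ s = r * t ∧ s' = r' * t ∧
      (toL (p * r).1.1).length ≤ L + L * L := by
  have hA : ∀ q : Q, ∃ l : List A, F (fun a => f (FreeSemigroup.of a)) l = q := by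
    intro q
    obtain ⟨x, rfl⟩ := hf q
    exact ⟨toL x, F_toL f x⟩
  have hB : ∀ q : Q, ∃ l : List B, F (fun b => g (FreeSemigroup.of b)) l = q := by
    intro q
    obtain ⟨x, rfl⟩ := hg q
    exact ⟨toL x, F_toL g x⟩
  have e1 : toL p.1.1 ++ toL s.1.1 = toL p'.1.1 ++ toL s'.1.1 :=
    congrArg (fun z : fiberProduct f g => toL z.1.1) h
  have e2 : toL p.1.2 ++ toL s.1.2 = toL p'.1.2 ++ toL s'.1.2 :=
    congrArg (fun z : fiberProduct f g => toL z.1.2) h
  obtain ⟨x, hx⟩ : toL p.1.1 <+: toL p'.1.1 :=
    List.prefix_of_prefix_length_le (List.prefix_append _ (toL s.1.1))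
      (by rw [e1]; exact List.prefix_append _ _) hlt.le
  have hxne : x ≠ [] := by
    rintro rfl
    rw [List.append_nil] at hx
    rw [hx] at hlt
    exact lt_irrefl _ hlt
  have hs1 : toL s.1.1 = x ++ toL s'.1.1 := by
    rw [← hx, List.append_assoc, List.append_cancel_left_eq] at e1
    exact e1
  have hmp := matched p
  have hmp' := matched p'
  have hms := matched s
  have hms' := matched s'
  obtain ⟨y, hy⟩ : toL p.1.2 <+: toL p'.1.2 := by
    rcases Nat.le_total (toL p.1.2).length (toL p'.1.2).length with hle | hle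
    · exact List.prefix_of_prefix_length_le (List.prefix_append _ (toL s.1.2))
        (by rw [e2]; exact List.prefix_append _ _) hle
    · exfalso
      obtain ⟨y, hy⟩ : toL p'.1.2 <+: toL p.1.2 :=
        List.prefix_of_prefix_length_le (List.prefix_append _ (toL s'.1.2))
          (by rw [← e2]; exact List.prefix_append _ _) hle
      rw [← hy, F_append, ← hmp', ← hx, F_append, mul_assoc] at hmp
      have h2 := absorb_right hG hA hB _ _ hmp.symm
      -- `F x * F y = 1` forces `x = []`
      cases x with
      | nil => exact hxne rfl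
      | cons a x =>
        rw [F_cons, mul_assoc] at h2
        exact coe_mul_ne_one _ _ h2
  have hs2 : toL s.1.2 = y ++ toL s'.1.2 := by
    rw [← hy, List.append_assoc, List.append_cancel_left_eq] at e2
    exact e2
  have hyne : y ≠ [] := by
    rintro rfl
    rw [List.append_nil] at hy
    rw [← hx, ← hy, F_append, hmp] at hmp'
    exact hxne (F_eq_one (absorb_right hG hA hB _ _ hmp'))
  rw [hs1, hs2] at hms
  obtain ⟨α1, α2, β1, β2, a1, a2, a3, a4, a5, a6, a7, a8⟩ :=
    refine_list hG hA hB x y hxne hyne _ _ hms' hms hlong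
  obtain ⟨r', hr'1, hr'2⟩ := exists_elt a6 a3
  obtain ⟨t, ht1, ht2⟩ := exists_elt a7 a4
  obtain ⟨r, hr1, hr2⟩ := exists_elt (U := x ++ α1) (by simp [hxne]) a5
  refine ⟨r, r', t, ?_, ?_, ?_, ?_⟩
  · apply Subtype.ext
    apply Prod.ext
    · apply toL_inj
      change toL p.1.1 ++ toL r.1.1 = toL p'.1.1 ++ toL r'.1.1
      rw [hr1, hr'1, ← hx, List.append_assoc]
    · apply toL_inj
      change toL p.1.2 ++ toL r.1.2 = toL p'.1.2 ++ toL r'.1.2
      rw [hr2, hr'2, ← hy, List.append_assoc]
  · apply Subtype.ext
    apply Prod.ext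
    · apply toL_inj
      change toL s.1.1 = toL r.1.1 ++ toL t.1.1
      rw [hs1, a1, hr1, ht1, List.append_assoc]
    · apply toL_inj
      change toL s.1.2 = toL r.1.2 ++ toL t.1.2
      rw [hs2, a2, hr2, ht2, List.append_assoc]
  · apply Subtype.ext
    apply Prod.ext
    · apply toL_inj
      change toL s'.1.1 = toL r'.1.1 ++ toL t.1.1
      rw [a1, hr'1, ht1]
    · apply toL_inj
      change toL s'.1.2 = toL r'.1.2 ++ toL t.1.2
      rw [a2, hr'2, ht2]
  · change (toL p.1.1 ++ toL r.1.1).length ≤ _
    rw [hr1, ← List.append_assoc, hx, List.length_append]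
    omega

/-- Two words with the same value in `S` are related modulo finitely many relations. -/
lemma words_related {L n : ℕ}
    (hG : Gen (fun a => f (FreeSemigroup.of a)) (fun b => g (FreeSemigroup.of b)) L)
    (hf : Function.Surjective f) (hg : Function.Surjective g)
    (φ : FreeSemigroup (Fin n) →ₙ* fiberProduct f g) (hφ : Function.Surjective φ)
    (hφL : ∀ i, (toL (φ (FreeSemigroup.of i)).1.1).length ≤ L) (K : ℕ) (hK : K = L * L + 3 * L) :
    ∀ (N : ℕ) (w w' : FreeSemigroup (Fin n)), (toL (φ w).1.1).length ≤ N → φ w = φ w' →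
      conGen (fun x y : FreeSemigroup (Fin n) =>
        (x, y) ∈ {z : FreeSemigroup (Fin n) × FreeSemigroup (Fin n) |
          φ z.1 = φ z.2 ∧ z.1.length ≤ K ∧ z.2.length ≤ K}) w w' := by
  have hlen : ∀ w : FreeSemigroup (Fin n), w.length ≤ (toL (φ w).1.1).length := by
    intro w
    induction w using FreeSemigroup.recOnMul with
    | ih1 i => exact List.length_pos_iff.2 (toL_ne _)
    | ih2 x y hx hy =>
      rw [FreeSemigroup.length_mul, map_mul]
      change _ ≤ (toL (φ (FreeSemigroup.of x)).1.1 ++ toL (φ y).1.1).length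
      rw [List.length_append]
      omega
  have hsplit : ∀ w : FreeSemigroup (Fin n), (∃ i, w = FreeSemigroup.of i) ∨
      ∃ i w1, w = FreeSemigroup.of i * w1 := by
    rintro ⟨a, l⟩
    cases l with
    | nil => left; exact ⟨a, rfl⟩
    | cons b l => right; exact ⟨a, ⟨b, l⟩, rfl⟩
  have hshort : ∀ w w' : FreeSemigroup (Fin n), (toL (φ w).1.1).length ≤ K → φ w = φ w' →
      conGen (fun x y : FreeSemigroup (Fin n) =>
        (x, y) ∈ {z : FreeSemigroup (Fin n) × FreeSemigroup (Fin n) |
          φ z.1 = φ z.2 ∧ z.1.length ≤ K ∧ z.2.length ≤ K}) w w' := by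
    intro w w' h1 h2
    refine ConGen.Rel.of _ _ ⟨h2, (hlen w).trans h1, (hlen w').trans ?_⟩
    rw [← h2]; exact h1
  have hmul1 : ∀ x y : fiberProduct f g, (toL (x * y).1.1).length =
      (toL x.1.1).length + (toL y.1.1).length := by
    intro x y
    change (toL x.1.1 ++ toL y.1.1).length = _
    rw [List.length_append]
  have hpos : ∀ x : fiberProduct f g, 1 ≤ (toL x.1.1).length :=
    fun x => List.length_pos_iff.2 (toL_ne _)
  intro N
  induction N with
  | zero =>
    intro w w' h1 h2
    have := hpos (φ w)
    omega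
  | succ N ih =>
    intro w w' h1 h2
    by_cases hsm : (toL (φ w).1.1).length ≤ K
    · exact hshort w w' hsm h2
    push Not at hsm
    rcases hsplit w with ⟨i, rfl⟩ | ⟨i, w1, rfl⟩
    · have := hφL i
      have hLK : L ≤ K := by rw [hK]; omega
      omega
    rcases hsplit w' with ⟨j, rfl⟩ | ⟨j, w1', rfl⟩
    · have := hφL j
      rw [h2] at hsm
      omega
    have hi := hφL i
    have hj := hφL j
    have hlw : (toL (φ (FreeSemigroup.of i * w1)).1.1).length =
        (toL (φ (FreeSemigroup.of i)).1.1).length + (toL (φ w1).1.1).length := by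
      rw [map_mul, hmul1]
    have hlw' : (toL (φ (FreeSemigroup.of j * w1')).1.1).length =
        (toL (φ (FreeSemigroup.of j)).1.1).length + (toL (φ w1').1.1).length := by
      rw [map_mul, hmul1]
    have hpi := hpos (φ (FreeSemigroup.of i))
    have hpj := hpos (φ (FreeSemigroup.of j))
    have heq : (toL (φ (FreeSemigroup.of i * w1)).1.1).length =
      (toL (φ (FreeSemigroup.of j * w1')).1.1).length := by rw [h2]
    have h3 : φ (FreeSemigroup.of i) * φ w1 = φ (FreeSemigroup.of j) * φ w1' := by
      rw [← map_mul, ← map_mul, h2]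
    -- the case where the two first generators are comparable via `join`
    have main : ∀ (i j : Fin n) (w1 w1' : FreeSemigroup (Fin n)),
        (toL (φ (FreeSemigroup.of j)).1.1).length ≤ L →
        φ (FreeSemigroup.of i) * φ w1 = φ (FreeSemigroup.of j) * φ w1' →
        (toL (φ (FreeSemigroup.of i)).1.1).length < (toL (φ (FreeSemigroup.of j)).1.1).length →
        L * L + L < (toL (φ w1').1.1).length → (toL (φ w1).1.1).length ≤ N →
        (toL (φ w1').1.1).length ≤ N →
        conGen (fun x y : FreeSemigroup (Fin n) =>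
          (x, y) ∈ {z : FreeSemigroup (Fin n) × FreeSemigroup (Fin n) |
            φ z.1 = φ z.2 ∧ z.1.length ≤ K ∧ z.2.length ≤ K})
          (FreeSemigroup.of i * w1) (FreeSemigroup.of j * w1') := by
      intro i j w1 w1' hj h3 hlt hlong hN1 hN2
      obtain ⟨r, r', t, t1, t2, t3, t4⟩ := join hG hf hg _ _ _ _ h3 hlt hj hlong
      obtain ⟨ρ, rfl⟩ := hφ r
      obtain ⟨ρ', rfl⟩ := hφ r'
      obtain ⟨θ, rfl⟩ := hφ t
      have c1 := ih w1 (ρ * θ) hN1 (by rw [map_mul]; exact t2)
      have c2 := ih w1' (ρ' * θ) hN2 (by rw [map_mul]; exact t3)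
      have c3 := hshort (FreeSemigroup.of i * ρ) (FreeSemigroup.of j * ρ')
        (by rw [map_mul, hK]; omega) (by rw [map_mul, map_mul]; exact t1)
      refine Con.trans _ (Con.mul _ (Con.refl _ _) c1) ?_
      refine Con.trans _ ?_ (Con.mul _ (Con.refl _ _) (Con.symm _ c2))
      rw [← mul_assoc, ← mul_assoc]
      exact Con.mul _ c3 (Con.refl _ _)
    rcases Nat.lt_trichotomy (toL (φ (FreeSemigroup.of i)).1.1).length
      (toL (φ (FreeSemigroup.of j)).1.1).length with hlt | he | hgt
    · exact main i j w1 w1' hj h3 hlt (by omega) (by omega) (by omega)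
    · -- equal first generators
      have e1 : toL (φ (FreeSemigroup.of i)).1.1 ++ toL (φ w1).1.1 =
          toL (φ (FreeSemigroup.of j)).1.1 ++ toL (φ w1').1.1 :=
        congrArg (fun z : fiberProduct f g => toL z.1.1) h3
      have e2 : toL (φ (FreeSemigroup.of i)).1.2 ++ toL (φ w1).1.2 =
          toL (φ (FreeSemigroup.of j)).1.2 ++ toL (φ w1').1.2 :=
        congrArg (fun z : fiberProduct f g => toL z.1.2) h3
      obtain ⟨d1, d2⟩ := List.append_inj e1 he
      have hA : ∀ q : Q, ∃ l : List A, F (fun a => f (FreeSemigroup.of a)) l = q := by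
        intro q
        obtain ⟨x, rfl⟩ := hf q
        exact ⟨toL x, F_toL f x⟩
      have hB : ∀ q : Q, ∃ l : List B, F (fun b => g (FreeSemigroup.of b)) l = q := by
        intro q
        obtain ⟨x, rfl⟩ := hg q
        exact ⟨toL x, F_toL g x⟩
      have m1 := matched (φ (FreeSemigroup.of i))
      have m2 := matched (φ (FreeSemigroup.of j))
      have d3 : toL (φ (FreeSemigroup.of i)).1.2 = toL (φ (FreeSemigroup.of j)).1.2 := by
        rcases Nat.le_total (toL (φ (FreeSemigroup.of i)).1.2).length
          (toL (φ (FreeSemigroup.of j)).1.2).length with hle | hle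
        · obtain ⟨y, hy⟩ : toL (φ (FreeSemigroup.of i)).1.2 <+: toL (φ (FreeSemigroup.of j)).1.2 :=
            List.prefix_of_prefix_length_le (List.prefix_append _ (toL (φ w1).1.2))
              (by rw [e2]; exact List.prefix_append _ _) hle
          rw [← hy, F_append, ← m1, d1] at m2
          have hy0 := F_eq_one (absorb_right hG hA hB _ _ m2.symm)
          rw [hy0, List.append_nil] at hy
          exact hy
        · obtain ⟨y, hy⟩ : toL (φ (FreeSemigroup.of j)).1.2 <+: toL (φ (FreeSemigroup.of i)).1.2 :=
            List.prefix_of_prefix_length_le (List.prefix_append _ (toL (φ w1').1.2))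
              (by rw [← e2]; exact List.prefix_append _ _) hle
          rw [← hy, F_append, ← m2, d1] at m1
          have hy0 := F_eq_one (absorb_right hG hA hB _ _ m1.symm)
          rw [hy0, List.append_nil] at hy
          exact hy.symm
      obtain ⟨_, d4⟩ := List.append_inj e2 (by rw [d3])
      have p1 : φ (FreeSemigroup.of i) = φ (FreeSemigroup.of j) :=
        Subtype.ext (Prod.ext (toL_inj d1) (toL_inj d3))
      have p2 : φ w1 = φ w1' := Subtype.ext (Prod.ext (toL_inj d2) (toL_inj d4))
      exact Con.mul _ (hshort _ _ (by rw [hK]; omega) p1) (ih _ _ (by omega) p2)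
    · exact Con.symm _ (main j i w1' w1 hi h3.symm hgt (by omega) (by omega) (by omega))

end transfer

/-- Every finitely generated fiber product of two free semigroups (over any, in particular over any
infinite, fiber quotient) is finitely presented. -/
theorem result (A : Type u) (B : Type v) (Q : Type w) [Semigroup Q]
    (f : FreeSemigroup A →ₙ* Q) (g : FreeSemigroup B →ₙ* Q)
    (hf : Function.Surjective f) (hg : Function.Surjective g)
    (hfg : IsFinitelyGenerated (fiberProduct f g)) :
    IsFinitelyPresented (fiberProduct f g) := by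
  obtain ⟨X, hXfin, hX⟩ := hfg
  -- a bound for the lengths of the generators
  obtain ⟨L, hL⟩ : ∃ L : ℕ, ∀ s ∈ X, (toL s.1.1).length ≤ L ∧ (toL s.1.2).length ≤ L := by
    obtain ⟨L1, hL1⟩ := (hXfin.image (fun s => (toL s.1.1).length)).bddAbove
    obtain ⟨L2, hL2⟩ := (hXfin.image (fun s => (toL s.1.2).length)).bddAbove
    refine ⟨max L1 L2, fun s hs => ⟨?_, ?_⟩⟩
    · exact le_max_of_le_left (hL1 ⟨s, hs, rfl⟩)
    · exact le_max_of_le_right (hL2 ⟨s, hs, rfl⟩)
  have hG := gen_of_closure hX hL
  have : Finite X := hXfin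
  obtain ⟨n, ⟨e⟩⟩ := Finite.exists_equiv_fin X
  let φ : FreeSemigroup (Fin n) →ₙ* fiberProduct f g := FreeSemigroup.lift (fun i => (e.symm i).1)
  have hφof : ∀ i, φ (FreeSemigroup.of i) = (e.symm i).1 := fun i => FreeSemigroup.lift_of _ _
  have hφ : Function.Surjective φ := by
    intro s
    have hs : s ∈ Subsemigroup.closure X := by rw [hX]; trivial
    induction hs using Subsemigroup.closure_induction with
    | mem x hx =>
      refine ⟨FreeSemigroup.of (e ⟨x, hx⟩), ?_⟩
      rw [hφof, Equiv.symm_apply_apply]
    | mul x y hx hy ihx ihy =>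
      obtain ⟨w1, h1⟩ := ihx
      obtain ⟨w2, h2⟩ := ihy
      exact ⟨w1 * w2, by rw [map_mul, h1, h2]⟩
  have hφL : ∀ i, (toL (φ (FreeSemigroup.of i)).1.1).length ≤ L := by
    intro i
    rw [hφof]
    exact (hL _ (e.symm i).2).1
  have hrel := words_related hG hf hg φ hφ hφL (L * L + 3 * L) rfl
  refine ⟨n, {z : FreeSemigroup (Fin n) × FreeSemigroup (Fin n) |
    φ z.1 = φ z.2 ∧ z.1.length ≤ L * L + 3 * L ∧ z.2.length ≤ L * L + 3 * L}, ?_, ?_⟩
  · -- finiteness of the set of relations
    have hfin : {w : FreeSemigroup (Fin n) | w.length ≤ L * L + 3 * L}.Finite := by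
      have h1 := List.finite_length_le (Fin n) (L * L + 3 * L)
      refine Set.Finite.of_finite_image (f := toL) (h1.subset ?_) ?_
      · rintro _ ⟨w, hw, rfl⟩
        exact hw
      · intro x _ y _ hxy
        exact toL_inj hxy
    refine (hfin.prod hfin).subset ?_
    rintro ⟨x, y⟩ ⟨_, h2, h3⟩
    exact ⟨h2, h3⟩
  · -- the isomorphism
    have hker : ∀ w w' : FreeSemigroup (Fin n), conGen (fun x y : FreeSemigroup (Fin n) =>
        (x, y) ∈ {z : FreeSemigroup (Fin n) × FreeSemigroup (Fin n) |
          φ z.1 = φ z.2 ∧ z.1.length ≤ L * L + 3 * L ∧ z.2.length ≤ L * L + 3 * L}) w w' ↔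
          φ w = φ w' := by
      intro w w'
      constructor
      · intro h
        have hle : conGen (fun x y : FreeSemigroup (Fin n) =>
            (x, y) ∈ {z : FreeSemigroup (Fin n) × FreeSemigroup (Fin n) |
            φ z.1 = φ z.2 ∧ z.1.length ≤ L * L + 3 * L ∧ z.2.length ≤ L * L + 3 * L}) ≤
            Con.ker φ := by
          rw [Con.conGen_le]
          rintro x y ⟨h1, _⟩
          exact h1
        exact hle h
      · intro h
        exact hrel _ w w' le_rfl h
    refine ⟨MulEquiv.ofBijective (MulHom.mk (fun q => Con.liftOn q (fun w => φ w)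
      (fun a b h => (hker a b).1 h)) ?_) ⟨?_, ?_⟩⟩
    · intro x y
      induction x, y using Con.induction_on₂ with
      | H x y => exact map_mul φ x y
    · intro x y
      induction x, y using Con.induction_on₂ with
      | H x y =>
        intro h
        exact (Con.eq _).2 ((hker x y).2 h)
    · intro s
      obtain ⟨w, rfl⟩ := hφ s
      exact ⟨(w : Con.Quotient _), rfl⟩

end Pool.Agent.Results.MP_c47b4a_al.FiberProductFP
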